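import Pool.Agent.helper51.VF.SpecC
import Pool.Agent.helper51.VF.Lib

/-!
# Row vf:RHO (MP_74cfa5_ag)
-/

set_option autoImplicit false

namespace Pool.Agent.VF

open Pool.Agent.PC Pool.Agent.QS MvPolynomial

universe u

/-- `δ` maps `t A_Q` to `t A_Q` -/
theorem RHO_inv {A F K : Type u} [CommRing A] [IsDomain A] [Field F] [Field K] [Algebra A K] [IsFractionRing A K]
    [Algebra F K] {Q : Ideal A} [hQ : Q.IsPrime] {δ : Derivation F K K} (hδ : ∀ a : A, Loc Q (δ (algebraMap A K a)))
    {t : A} (ht : LocI Q (Ideal.span {t}) (δ (algebraMap A K t))) {x : K} (hx : LocI Q (Ideal.span {t}) x) :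
    LocI Q (Ideal.span {t}) (δ x) := by
  obtain ⟨a, s, hs, ha, rfl⟩ := hx
  obtain ⟨b, rfl⟩ := Ideal.mem_span_singleton'.1 ha
  have h1 : algebraMap A K (b * t) / algebraMap A K s = algebraMap A K t * (algebraMap A K b / algebraMap A K s) := by
    rw [map_mul]; ring
  rw [h1, δ.leibniz, smul_eq_mul, smul_eq_mul]
  have h2 : Loc Q (algebraMap A K b / algebraMap A K s) := ⟨b, s, hs, rfl⟩
  have h3 := LB_der hδ h2
  refine LB_I_add ?_ (LB_I_mul_left h2 ht)
  rw [mul_comm]
  exact LB_I_mul_left h3 (LB_I_of hQ.ne_top (Ideal.mem_span_singleton_self t))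

theorem RHO_inv_iter {A F K : Type u} [CommRing A] [IsDomain A] [Field F] [Field K] [Algebra A K] [IsFractionRing A K]
    [Algebra F K] {Q : Ideal A} [hQ : Q.IsPrime] {δ : Derivation F K K} (hδ : ∀ a : A, Loc Q (δ (algebraMap A K a)))
    {t : A} (ht : LocI Q (Ideal.span {t}) (δ (algebraMap A K t))) (n : ℕ) {x : K} (hx : LocI Q (Ideal.span {t}) x) :
    LocI Q (Ideal.span {t}) ((⇑δ)^[n] x) := by
  induction n with
  | zero => exact hx
  | succ n ih => rw [Function.iterate_succ_apply']; exact RHO_inv hδ ht ih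

theorem RHO (hFDR : FDR_stmt.{u}) (hCAP : CAP_stmt.{u}) (hHOM : HOM_stmt.{u}) : RHO_stmt.{u} := by
  classical
  intro k R A F K _ _ _ _ _ _ _ _ _ _ _ _ _ _ _ _ _ _ _ _ _ _ _ _ _ _ _ p hp _ hFol S hS Q hQ hSQ t δ g hδ0 hδ
    hpcl hg hg' ht hinv s z hz
  have hp1 : 1 ≤ p := hp.out.one_lt.le
  have hp2 : 2 ≤ p := hp.out.two_le
  obtain ⟨hpow, hfr⟩ := hFol
  have injRA : Function.Injective (algebraMap R A) := FaithfulSMul.algebraMap_injective R A
  have injAK : Function.Injective (algebraMap A K) := IsFractionRing.injective A K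
  have injRK : Function.Injective (algebraMap R K) := by
    rw [IsScalarTower.algebraMap_eq R A K]
    exact injAK.comp injRA
  -- powers
  have hfrK : ∀ x : K, ∃ f : F, algebraMap F K f = x ^ p := by
    intro x
    obtain ⟨a, b, hb, rfl⟩ := IsFractionRing.div_surjective (A := A) x
    obtain ⟨r, hr⟩ := hpow a
    obtain ⟨r', hr'⟩ := hpow b
    refine ⟨algebraMap R F r / algebraMap R F r', ?_⟩
    rw [map_div₀, ← IsScalarTower.algebraMap_apply R F K, ← IsScalarTower.algebraMap_apply R F K,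
      IsScalarTower.algebraMap_apply R A K, IsScalarTower.algebraMap_apply R A K, hr, hr', map_pow, map_pow, div_pow]
  obtain ⟨-, -, hker⟩ := hFDR F K p hfr hfrK
  have hg0 : g ≠ 0 := by
    intro h
    exact hg' (h ▸ LB_I_zero hQ.ne_top)
  -- δ g = 0
  have hδg : δ g = 0 := by
    have hex : ∃ x : K, δ x ≠ 0 := by
      by_contra hcon
      push Not at hcon
      exact hδ0 (Derivation.ext fun x => by rw [hcon x]; rfl)
    obtain ⟨x, hx⟩ := hex
    have h1 : (⇑δ)^[p] (δ x) = δ ((⇑δ)^[p] x) := by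
      rw [← Function.iterate_succ_apply, Function.iterate_succ_apply']
    rw [hpcl, hpcl, δ.leibniz, smul_eq_mul, smul_eq_mul] at h1
    have h2 : δ x * δ g = 0 := by
      have h3 : g * δ (δ x) = g * δ (δ x) + δ x * δ g := h1
      exact left_eq_add.1 h3
    exact (mul_eq_zero.1 h2).resolve_left hx
  have hδgi : δ g⁻¹ = 0 := by
    have h1 : δ (g⁻¹ * g) = 0 := by rw [inv_mul_cancel₀ hg0, Derivation.map_one_eq_zero]
    rw [δ.leibniz, hδg, smul_zero, zero_add, smul_eq_mul] at h1
    exact (mul_eq_zero.1 h1).resolve_left hg0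
  -- the projection
  set ρ : K → K := fun c => c - g⁻¹ * (⇑δ)^[p - 1] c with hρ
  have hit_add : ∀ (N : ℕ) (c d : K), (⇑δ)^[N] (c + d) = (⇑δ)^[N] c + (⇑δ)^[N] d := by
    intro N
    induction N with
    | zero => intro c d; rfl
    | succ N ih => intro c d; rw [Function.iterate_succ_apply', ih, map_add, Function.iterate_succ_apply',
        Function.iterate_succ_apply']
  have hit_mul : ∀ (N : ℕ) (f : F) (c : K), (⇑δ)^[N] (algebraMap F K f * c) = algebraMap F K f * (⇑δ)^[N] c := by
    intro N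
    induction N with
    | zero => intro f c; rfl
    | succ N ih =>
      intro f c
      rw [Function.iterate_succ_apply', ih, Function.iterate_succ_apply', δ.leibniz, Derivation.map_algebraMap,
        smul_zero, add_zero, smul_eq_mul]
  have hρadd : ∀ c d, ρ (c + d) = ρ c + ρ d := by
    intro c d
    simp only [hρ]
    rw [hit_add]
    ring
  have hρmul : ∀ (f : F) (c : K), ρ (algebraMap F K f * c) = algebraMap F K f * ρ c := by
    intro f c
    simp only [hρ]
    rw [hit_mul]
    ring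
  have hρF : ∀ f : F, ρ (algebraMap F K f) = algebraMap F K f := by
    intro f
    simp only [hρ]
    obtain ⟨q, hq⟩ : ∃ q, p - 1 = q + 1 := ⟨p - 2, by omega⟩
    rw [hq, Function.iterate_succ_apply, Derivation.map_algebraMap]
    have h0 : ∀ N : ℕ, (⇑δ)^[N] (0 : K) = 0 := by
      intro N
      induction N with
      | zero => rfl
      | succ N ih => rw [Function.iterate_succ_apply', ih, map_zero]
    rw [h0, mul_zero, sub_zero]
  have hρker : ∀ c, ∃ f : F, algebraMap F K f = ρ c := by
    intro c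
    apply hker δ hδ0
    simp only [hρ]
    rw [map_sub, δ.leibniz, hδgi, smul_zero, add_zero, smul_eq_mul, ← Function.iterate_succ_apply' (f := ⇑δ)]
    have h1 : (p - 1).succ = p := by omega
    rw [h1, hpcl, ← mul_assoc, inv_mul_cancel₀ hg0, one_mul, sub_self]
  have hgi : Loc Q g⁻¹ := LB_inv hg hg'
  have hρLoc : ∀ c, Loc Q c → Loc Q (ρ c) := fun c hc => LB_sub hc (LB_mul hgi (LB_der_iter hδ _ hc))
  have hρt : ∀ c, LocI Q (Ideal.span {t}) c → LocI Q (Ideal.span {t}) (ρ c) := fun c hc =>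
    LB_I_sub hc (LB_I_mul_left hgi (RHO_inv_iter hδ hinv _ hc))
  -- elements of F in the local ring
  have hfrac : ∀ (J : Ideal A) (f : F), LocI Q J (algebraMap F K f) → ∃ r r' : R, r' ∉ Q.comap (algebraMap R A) ∧
      algebraMap R A r ∈ J ∧ algebraMap F K f * algebraMap R K r' = algebraMap R K r := by
    rintro J f ⟨a, b, hb, ha, hab⟩
    have hb0 := LB_ne (K := K) hb
    obtain ⟨r', hr'⟩ := hpow b
    have h1 : algebraMap F K f * algebraMap R K r' = algebraMap A K (a * b ^ (p - 1)) := by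
      rw [hab, IsScalarTower.algebraMap_apply R A K, hr', map_mul, map_pow, map_pow]
      have h2 : algebraMap A K b ^ p = algebraMap A K b * algebraMap A K b ^ (p - 1) := by
        rw [← pow_succ']
        congr 1
        omega
      rw [h2]
      field_simp
    obtain ⟨r, hr⟩ := hCAP R A F K (f * algebraMap R F r') (a * b ^ (p - 1)) (by
      rw [map_mul, ← IsScalarTower.algebraMap_apply R F K]
      exact h1)
    refine ⟨r, r', ?_, ?_, ?_⟩
    · intro h
      rw [Ideal.mem_comap, hr'] at h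
      exact hb (hQ.mem_of_pow_mem p h)
    · rw [hr]
      exact J.mul_mem_right _ ha
    · rw [h1, IsScalarTower.algebraMap_apply R A K, hr]
  -- the equation
  obtain ⟨s', hs', hz'⟩ := hz
  obtain ⟨a, b, hab⟩ := Ideal.mem_span_pair.1 hz'
  obtain ⟨r₀, hr₀⟩ := hpow s'
  have hr₀P : r₀ ∉ Q.comap (algebraMap R A) := by
    intro h
    rw [Ideal.mem_comap, hr₀] at h
    exact hs' (hQ.mem_of_pow_mem p h)
  set a' : A := a * s' ^ (p - 1) with ha'
  set b' : A := b * s' ^ (p - 1) with hb'
  have heq : algebraMap R A (r₀ * z) = algebraMap R A s * a' + t * b' := by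
    rw [map_mul, hr₀]
    have h2 : s' ^ p = s' * s' ^ (p - 1) := by
      rw [← pow_succ']
      congr 1
      omega
    rw [h2, ha', hb']
    linear_combination (-s' ^ (p - 1)) * hab
  have heqK : algebraMap R K (r₀ * z) = algebraMap R K s * algebraMap A K a' + algebraMap A K (t * b') := by
    rw [IsScalarTower.algebraMap_apply R A K, heq, map_add, map_mul, ← IsScalarTower.algebraMap_apply R A K]
  have hρeq : algebraMap R K (r₀ * z) = algebraMap R K s * ρ (algebraMap A K a') + ρ (algebraMap A K (t * b')) := by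
    have h1 := congrArg ρ heqK
    rw [hρadd] at h1
    rw [IsScalarTower.algebraMap_apply R F K (r₀ * z), hρF, IsScalarTower.algebraMap_apply R F K s, hρmul] at h1
    rw [IsScalarTower.algebraMap_apply R F K (r₀ * z), IsScalarTower.algebraMap_apply R F K s]
    exact h1
  obtain ⟨f1, hf1⟩ := hρker (algebraMap A K a')
  obtain ⟨f2, hf2⟩ := hρker (algebraMap A K (t * b'))
  obtain ⟨r1, r1', hr1', -, hr1⟩ := hfrac ⊤ f1 (by
    rw [hf1]
    exact LB_I_top (hρLoc _ (LB_of hQ.ne_top _)))
  obtain ⟨r2, r2', hr2', hr2I, hr2⟩ := hfrac (Ideal.span {t}) f2 (by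
    rw [hf2]
    exact hρt _ (LB_I_of hQ.ne_top (Ideal.mul_mem_right _ _ (Ideal.mem_span_singleton_self t))))
  have hr2S : r2 ∈ S := by
    have h1 := ((hHOM R A p (by omega) hpow).2.2.2 S hS).2
    rw [← h1, Ideal.mem_comap]
    exact (Ideal.span_singleton_le_iff_mem _).2 ht hr2I
  have hQ' : (Q.comap (algebraMap R A)).IsPrime := inferInstance
  refine ⟨r1' * r2' * r₀, hQ'.mul_notMem (hQ'.mul_notMem hr1' hr2') hr₀P, ?_⟩
  have hfin : r1' * r2' * r₀ * z = s * (r1 * r2') + r2 * r1' := by
    apply injRK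
    rw [← hf1, ← hf2] at hρeq
    rw [map_add, map_mul, map_mul, map_mul, map_mul, map_mul, map_mul, ← hr1, ← hr2]
    rw [map_mul] at hρeq
    linear_combination (algebraMap R K r1' * algebraMap R K r2') * hρeq
  rw [hfin]
  exact Ideal.add_mem _ (Ideal.mem_sup_left (Ideal.mul_mem_right _ _ (Ideal.mem_span_singleton_self s)))
    (Ideal.mem_sup_right (S.mul_mem_right _ hr2S))

end Pool.Agent.VF
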