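import Pool.Agent.helper51.VF.SpecC
import Pool.Agent.helper51.VF.Lib

/-!
# Row vf:SGP (MP_74cfa5_ag)
-/

set_option autoImplicit false

namespace Pool.Agent.VF

open Pool.Agent.PC Pool.Agent.QS MvPolynomial

universe u

theorem SGP (hFDR : FDR_stmt.{u}) (hPCL : PCL_stmt.{u}) (hHOM : HOM_stmt.{u}) (hSAT : SAT_stmt.{u})
    (hGRG : GRG_stmt.{u}) (hNLP : NLP_stmt.{u}) (hIVT : IVT_stmt.{u}) (hTRF : TRF_stmt.{u}) (hGTR : GTR_stmt.{u})
    (hRHO : RHO_stmt.{u}) (hLCF : QS.LCF_stmt.{u}) (hDUA : QS.DUA_stmt.{u}) : SGP_stmt.{u} := by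
  classical
  intro k R A F K _ _ _ _ _ _ _ _ _ _ _ _ _ _ _ _ _ _ _ _ _ _ _ _ _ _ _ _ n p hp hchar hFol x0 hx0 hKn hFn hdim
    h2 h3 _ S ω μ hS hω hμ hPlt Q hQ hSing r s x hSQ hsQ hsS hint hann
  have hp0 : 0 < p := hp.out.pos
  have hpow := hFol.1
  have hcharK : CharP K p := charP_of_injective_algebraMap (algebraMap k K).injective p
  have hnoeth : IsNoetherianRing A := Algebra.FiniteType.isNoetherianRing k A
  have hnp : n ≤ p := by
    obtain ⟨q, rfl⟩ : ∃ q, n = q + 2 := ⟨n - 2, by omega⟩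
    have h4 : q + 2 - 1 = q + 1 := by omega
    rw [h4] at h3
    nlinarith
  -- powers
  have hfrK : ∀ x : K, ∃ f : F, algebraMap F K f = x ^ p := by
    intro x
    obtain ⟨a, b, hb, rfl⟩ := IsFractionRing.div_surjective (A := A) x
    obtain ⟨r, hr⟩ := hpow a
    obtain ⟨r', hr'⟩ := hpow b
    refine ⟨algebraMap R F r / algebraMap R F r', ?_⟩
    rw [map_div₀, ← IsScalarTower.algebraMap_apply R F K, ← IsScalarTower.algebraMap_apply R F K,
      IsScalarTower.algebraMap_apply R A K, IsScalarTower.algebraMap_apply R A K, hr, hr', map_pow, map_pow, div_pow]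
  obtain ⟨-, -, -, hHP⟩ := hHOM R A p hp0 hpow
  obtain ⟨hIprime, hIcomap⟩ := hHP S hS
  have hIQ : (S.map (algebraMap R A)).radical ≤ Q := by
    rw [hQ.radical_le_iff]
    exact Ideal.map_le_iff_le_comap.2 hSQ
  obtain ⟨m, hm, hQm⟩ := Ideal.exists_le_maximal Q hQ.ne_top
  have := hm
  have hmp : m.IsPrime := hm.isPrime
  have hSm : S ≤ m.comap (algebraMap R A) := hSQ.trans (Ideal.comap_mono hQm)
  obtain ⟨g, t, hg0, ht0, hDA, hEqn, hDisc⟩ := hPlt m hm hSm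
  obtain ⟨-, -, hL⟩ := hLCF k A K n hdim
  obtain ⟨⟨y, hy⟩, -, hUFM⟩ := hL m
  obtain ⟨D, hD⟩ := hDUA k A K n hKn m hm y hy
  obtain ⟨hΔ, -, -⟩ := hFDR F K p hFol.2 hfrK
  obtain ⟨δ, hδ0, hSat⟩ := hSAT k A F K n (by omega) hKn m y D hD hUFM hΔ
  have hDis := hDisc δ hδ0 hSat
  have hδm := hSat.1
  have hδQ : ∀ a : A, Loc Q (δ (algebraMap A K a)) := fun a => LB_mono hQm (hδm a)
  have hFixQ : Fix Q δ := hSing δ hδQ
  have hFixm : Fix m δ := LB_fix_mono hQm hδm hFixQ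
  have htI : t ∈ (S.map (algebraMap R A)).radical := hEqn.1
  have htm : t ∈ m := hQm (hIQ htI)
  obtain ⟨g', hg'⟩ := hPCL F K p hFol.2 hfrK δ hδ0
  have hg'm : Loc m (algebraMap F K g') := hGRG k A F K p m hUFM δ _ hSat hg'
  have hg'n : ¬ LocI m m (algebraMap F K g') := hNLP k R A F K n p hFol x0 hx0 hKn hFn hdim h2 h3 ω μ g hω hg0 hμ m hDA
    t ht0 htm δ hδ0 hδm hDis hFixm _ hg'
  have hg'Q : Loc Q (algebraMap F K g') := LB_mono hQm hg'm
  have hg'Qn : ¬ LocI Q Q (algebraMap F K g') := LB_unit_mono hQm hg'm hg'n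
  have hinvm : LocI m (Ideal.span {t}) (δ (algebraMap A K t)) := hIVT k R A F K n p hFol x0 hx0 hKn hFn hdim h2 hnp ω μ g
    hω hg0 hμ m hDA t ht0 htm δ hδ0 hδm hDis hFixm
  have hinvQ : LocI Q (Ideal.span {t}) (δ (algebraMap A K t)) := LB_I_mono_left hQm hinvm
  have hTri : Tri Q t := hTRF k R A F K n p hFol x0 hx0 hKn hFn hdim h2 S ω μ hω hμ hPlt Q hQ hIQ hSing m t hm hQm hEqn
  have hEqQ : ∀ b ∈ (S.map (algebraMap R A)).radical, Inn Q (Ideal.span {t}) b := by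
    intro b hb
    obtain ⟨s1, hs1, hs2⟩ := hEqn.2 b hb
    exact ⟨s1, fun h => hs1 (hQm h), hs2⟩
  have hSI : ∀ c ∈ S, algebraMap R A c ∈ (S.map (algebraMap R A)).radical := fun c hc =>
    Ideal.le_radical (Ideal.mem_map_of_mem _ hc)
  have hmain := hGTR A Q (S.map (algebraMap R A)).radical t hQ ht0 (Ideal.radical_isRadical _) hIQ htI hEqQ hTri
    (algebraMap R A r) (algebraMap R A s) (algebraMap R A x) p hsQ
    (by
      intro y hy
      refine (hIprime.mem_or_mem hy).resolve_left fun h => hsS ?_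
      rw [← hIcomap]
      exact h)
    (by
      obtain ⟨N, a, hN, ha⟩ := hint
      refine ⟨N, fun i => algebraMap R A (a i), hN, ?_⟩
      have h5 := hSI _ ha
      simpa only [map_add, map_pow, map_sum, map_mul] using h5)
    (by
      intro b hb
      obtain ⟨β, hβ⟩ := hpow b
      have hβQ : β ∈ Q.comap (algebraMap R A) := by
        rw [Ideal.mem_comap, hβ]
        exact Q.pow_mem_of_mem hb p hp0
      obtain ⟨σ, hσ, hσ'⟩ := hann β hβQ
      obtain ⟨c1, hc1, c2, hc2, hc⟩ := Submodule.mem_sup.1 hσ'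
      obtain ⟨c3, rfl⟩ := Ideal.mem_span_singleton'.1 hc1
      obtain ⟨s1, hs1, hs2⟩ := hEqQ _ (hSI _ hc2)
      obtain ⟨c4, hc4⟩ := Ideal.mem_span_singleton'.1 hs2
      refine ⟨s1 * algebraMap R A σ, hQ.mul_notMem hs1 hσ, ?_⟩
      rw [Ideal.mem_span_pair]
      refine ⟨s1 * algebraMap R A c3, c4, ?_⟩
      have h6 := congrArg (algebraMap R A) hc
      simp only [map_add, map_mul, hβ] at h6
      linear_combination s1 * h6 + hc4)
  refine hRHO k R A F K p hFol S hS Q hQ hIQ t δ _ hδ0 hδQ hg' hg'Q hg'Qn htI hinvQ s (x * r) ?_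
  rw [map_mul]
  exact hmain

end Pool.Agent.VF
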