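import Pool.Agent.helper51.VF.SpecB
import Pool.Agent.helper51.VF.Lib

/-!
# Row vf:ETK (MP_74cfa5_ag)
-/

set_option autoImplicit false

namespace Pool.Agent.VF

open Pool.Agent.PC Pool.Agent.QS MvPolynomial

universe u

/-- the product rule for `∑ r_m u ^ m` -/
theorem ETK_der {k F K : Type u} [Field k] [Field F] [Field K] [Algebra k K] [Algebra F K] (D : Derivation k K K)
    (p : ℕ) (r : ℕ → F) (u : K) :
    D (∑ i ∈ Finset.range p, algebraMap F K (r i) * u ^ i) =
      ∑ l : Fin (p + 1), (if (l : ℕ) < p then u ^ (l : ℕ) else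
        ∑ i ∈ Finset.range p, algebraMap F K (r i) * ((i : K) * u ^ (i - 1))) *
        D (if (l : ℕ) < p then algebraMap F K (r l) else u) := by
  rw [Fin.sum_univ_castSucc]
  have h1 : ∀ x : Fin p, ((x.castSucc : Fin (p + 1)) : ℕ) = x := fun x => rfl
  simp only [h1, Fin.is_lt, if_true, Fin.val_last, lt_irrefl, if_false]
  rw [map_sum, Finset.sum_mul, Fin.sum_univ_eq_sum_range (fun x => u ^ x * D (algebraMap F K (r x))) p,
    ← Finset.sum_add_distrib]
  refine Finset.sum_congr rfl fun i _ => ?_
  rw [D.leibniz, D.leibniz_pow, smul_eq_mul, smul_eq_mul, smul_eq_mul, nsmul_eq_mul]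
  ring

theorem ETK_prod {A K : Type u} [CommRing A] [IsDomain A] [Field K] [Algebra A K] [IsFractionRing A K] (Q : Ideal A)
    [hQ : Q.IsPrime] {ι : Type} (t : Finset ι) (o : ι → K) (ho : ∀ i ∈ t, Loc Q (o i)) :
    Loc Q (∏ i ∈ t, o i) := by
  classical
  induction t using Finset.induction_on with
  | empty => rw [Finset.prod_empty]; exact LB_one hQ.ne_top
  | insert a t ha ih =>
    rw [Finset.prod_insert ha]
    exact LB_mul (ho a (Finset.mem_insert_self a t)) (ih fun i hi => ho i (Finset.mem_insert_of_mem hi))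

/-- Row ETK. -/
theorem ETK (hEXP : EXP_stmt.{u}) (hJUB : JUB_stmt.{u}) (hETF : ETF_stmt.{u}) : ETK_stmt.{u} := by
  classical
  intro k A F K _ _ _ _ _ _ _ _ _ _ _ _ _ p _ _ hfr hpow n D y hn hfrK hDy δ T Ψ hT hΨ Q hQ hloc hex
  obtain ⟨u, hu⟩ := hex
  set U : K := algebraMap A K u with hU
  have hδU : δ U ≠ 0 := by
    intro h
    apply hu
    rw [h]
    exact LB_I_zero hQ.ne_top
  have hLU : Loc Q U := LB_of hQ.ne_top u
  have hE := fun i : Fin n => hETF k A F K p hfr hpow Q hQ δ hloc u hu (y i)
  choose r hr hyr using hE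
  obtain ⟨up, hup⟩ := hpow U
  -- some `δ (y l) ≠ 0`
  have hexp : ∀ x : K, δ x = ∑ l, δ (algebraMap A K (y l)) * D l x := fun x =>
    hEXP k K n D (fun i => algebraMap A K (y i)) hn hfrK hDy (δ.restrictScalars k) x
  have hl0 : ∃ l0, δ (algebraMap A K (y l0)) ≠ 0 := by
    by_contra h
    push Not at h
    apply hδU
    rw [hexp U]
    exact Finset.sum_eq_zero fun l _ => by rw [h l, zero_mul]
  obtain ⟨l0, hl0⟩ := hl0
  let o : Fin n → Fin (p + 1) → K := fun i l => if (l : ℕ) < p then U ^ (l : ℕ) else
    ∑ j ∈ Finset.range p, algebraMap F K (r i j) * ((j : K) * U ^ (j - 1))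
  let z : Fin n → Fin (p + 1) → K := fun i l => if (l : ℕ) < p then algebraMap F K (r i l) else U
  have ho : ∀ i l, Loc Q (o i l) := by
    intro i l
    by_cases h : (l : ℕ) < p
    · simp only [o, if_pos h]
      exact LB_pow hLU _
    · simp only [o, if_neg h]
      refine LB_sum _ _ fun j _ => LB_mul (hr i j) (LB_mul ?_ (LB_pow hLU _))
      have := LB_of (K := K) hQ.ne_top ((j : ℕ) : A)
      rwa [map_natCast] at this
  have hDz : ∀ (i j : Fin n), D j (algebraMap A K (y i)) = ∑ l : Fin (p + 1), o i l * D j (z i l) := by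
    intro i j
    rw [hyr i]
    exact ETK_der (D j) p (r i) U
  have h1 : (1 : K) = (Matrix.detRowAlternating (R := K) (n := Fin n)).toMultilinearMap
      (fun i => ∑ l : Fin (p + 1), fun j => o i l * D j (z i l)) := by
    have h2 : (Matrix.of fun i j => D j (algebraMap A K (y i)))
        = (fun i => ∑ l : Fin (p + 1), fun j => o i l * D j (z i l)) := by
      funext i j
      rw [Finset.sum_apply, Matrix.of_apply]
      exact hDz i j
    have h3 : (1 : K) = (Matrix.of fun i j => D j (algebraMap A K (y i))).det := by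
      have h4 : (Matrix.of fun i j => D j (algebraMap A K (y i))) = (1 : Matrix (Fin n) (Fin n) K) := by
        ext i j
        rw [Matrix.of_apply, hDy, Matrix.one_apply]
        exact if_congr eq_comm rfl rfl
      rw [h4, Matrix.det_one]
    rw [h2] at h3
    exact h3
  rw [h1, MultilinearMap.map_sum]
  refine sum_mem fun e _ => ?_
  have h5 : (Matrix.detRowAlternating (R := K) (n := Fin n)).toMultilinearMap
      (fun i => fun j => o i (e i) * D j (z i (e i))) =
      (∏ i, o i (e i)) * (Matrix.of fun i j => D j (z i (e i))).det :=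
    Matrix.det_mul_column (fun i => o i (e i)) (Matrix.of fun i j => D j (z i (e i)))
  rw [h5]
  -- cases
  by_cases hc0 : ∃ i0, ¬ ((e i0 : ℕ) < p)
  swap
  · -- all entries from `F`
    push Not at hc0
    have h6 : (Matrix.of fun i j => D j (z i (e i))).det = 0 := by
      by_contra h
      have h7 := Matrix.eq_zero_of_mulVec_eq_zero h (v := fun l => δ (algebraMap A K (y l))) (by
        funext i
        rw [Matrix.mulVec, dotProduct, Pi.zero_apply]
        have h8 : z i (e i) = algebraMap F K (r i (e i)) := by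
          simp only [z, if_pos (hc0 i)]
        simp only [Matrix.of_apply]
        have h9 := hexp (z i (e i))
        rw [h8, δ.map_algebraMap] at h9
        rw [h8, h9]
        exact Finset.sum_congr rfl fun l _ => mul_comm _ _)
      exact hl0 (congrFun h7 l0)
    rw [h6, mul_zero]
    exact zero_mem _
  obtain ⟨i0, hi0⟩ := hc0
  have hzi0 : z i0 (e i0) = U := by simp only [z, if_neg hi0]
  by_cases hc1 : ∃ i1, i1 ≠ i0 ∧ ¬ ((e i1 : ℕ) < p)
  · obtain ⟨i1, hi10, hi1⟩ := hc1
    have hzi1 : z i1 (e i1) = U := by simp only [z, if_neg hi1]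
    have h6 : (Matrix.of fun i j => D j (z i (e i))).det = 0 := by
      refine Matrix.det_zero_of_row_eq hi10 ?_
      funext j
      rw [Matrix.of_apply, Matrix.of_apply, hzi0, hzi1]
    rw [h6, mul_zero]
    exact zero_mem _
  push Not at hc1
  let f : Fin n → F := fun i => if i = i0 then up else r i (e i)
  have hfi0 : algebraMap F K (f i0) = U ^ p := by
    simp only [f, if_true]
    exact hup
  have h6 := hJUB k F K p n D (fun i => algebraMap A K (y i)) hn hfrK hDy δ T hT l0 hl0 f i0 U hfi0
  have h7 := hΨ.1 T l0 hT hl0 f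
  have h8 : (Matrix.of fun i j => D j (z i (e i))).det =
      JJ D (Function.update (fun i => algebraMap F K (f i)) i0 U) := by
    unfold JJ
    refine congrArg Matrix.det ?_
    ext i j
    rw [Matrix.of_apply, Matrix.of_apply]
    by_cases h : i = i0
    · subst h
      rw [Function.update_self, hzi0]
    · rw [Function.update_of_ne h]
      simp only [z, f, if_neg h, if_pos (hc1 i h)]
  have hinv : Loc Q ((δ U ^ (p - 1))⁻¹) := by
    rw [← inv_pow]
    exact LB_pow (LB_inv (hloc u) hu) _
  refine AddSubgroup.subset_closure ⟨(∏ i, o i (e i)) * (δ U ^ (p - 1))⁻¹, LB_mul (ETK_prod Q _ _ fun i _ => ho i (e i)) hinv,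
    f, ?_, ?_⟩
  · intro i
    by_cases h : i = i0
    · subst h
      rw [hfi0]
      exact LB_pow hLU _
    · have h9 : f i = r i (e i) := by simp only [f, if_neg h]
      rw [h9]
      exact hr i _
  · rw [h7, h6, h8]
    have h10 : δ U ^ (p - 1) ≠ 0 := pow_ne_zero _ hδU
    field_simp

end Pool.Agent.VF
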